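import Pool.Agent.H59.PG.Stmts

/-!
# Parity games, row SWL: the selector from labels
-/

set_option autoImplicit false

namespace Pool.PG

open Filter TMLib

namespace SWLP

theorem sum_list (f : ℕ → ℕ) (n : ℕ) :
    ((List.range n).map f).sum = ∑ x ∈ Finset.range n, f x := by
  induction n with
  | zero => simp
  | succ n ih =>
    rw [List.range_succ, List.map_append, List.sum_append, ih, Finset.sum_range_succ]
    simp

theorem len_filter (p : ℕ → Bool) (s : ℕ) :
    ((List.range s).filter p).length = ∑ u ∈ Finset.range s, if p u = true then 1 else 0 := by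
  induction s with
  | zero => simp
  | succ s ih =>
    rw [List.range_succ, List.filter_append, List.length_append, ih, Finset.sum_range_succ]
    congr 1
    by_cases h : p s = true
    · rw [if_pos h, List.filter_cons_of_pos h]
      simp
    · rw [if_neg h, List.filter_cons_of_neg h]
      simp

theorem sum_blocks (f : ℕ → ℕ) (N s : ℕ) :
    ∑ i ∈ Finset.range (N * s), f i =
      ∑ x ∈ Finset.range N, ∑ u ∈ Finset.range s, f (x * s + u) := by
  induction N with
  | zero => simp
  | succ N ih =>
    rw [Nat.succ_mul, Finset.sum_range_add, ih, Finset.sum_range_succ]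

theorem argm_lt (q : ℕ → ℕ) (M : ℕ) (hM : 0 < M) : argm q M < M := by
  have key : ∀ (l : List ℕ) (b : ℕ), (∀ k ∈ l, k < M) → b < M →
      l.foldl (fun b k => if q k < q b then k else b) b < M := by
    intro l
    induction l with
    | nil => intro b _ hb; exact hb
    | cons a l ih =>
      intro b hl hb
      rw [List.foldl_cons]
      apply ih
      · intro k hk
        exact hl k (List.mem_cons_of_mem _ hk)
      · split_ifs
        · exact hl a List.mem_cons_self
        · exact hb
  unfold argm
  exact key _ 0 (fun k hk => List.mem_range.1 hk) hM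

theorem cdw_length (H : List (List Bool)) : (cdw H).length = 2 * H.length := by
  unfold cdw
  rw [List.length_append, List.length_map]
  ring

theorem cdw_row (H : List (List Bool)) (L : ℕ) (hH : ∀ r ∈ H, r.length = L) :
    ∀ r ∈ cdw H, r.length = L := by
  intro r hr
  unfold cdw at hr
  rw [List.mem_append] at hr
  rcases hr with h | h
  · exact hH r h
  · rw [List.mem_map] at h
    obtain ⟨r', h1, h2⟩ := h
    rw [← h2, List.length_map]
    exact hH r' h1

theorem agr_eq (f : List Bool) (s : ℕ) (c : List Bool) :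
    agr f s c = ∑ x ∈ Finset.range c.length, ∑ u ∈ Finset.range s,
      if f.getD (x * s + u) false = c.getD x false then 1 else 0 := by
  unfold agr
  rw [sum_list]
  apply Finset.sum_congr rfl
  intro x _
  rw [len_filter]
  apply Finset.sum_congr rfl
  intro u _
  simp only [beq_iff_eq]

end SWLP

open SWLP in
theorem swl_row (hORG : ORGStmt) (hRST : RSTStmt) (hRSL : RSLStmt) (hCAT : CATStmt)
    (hHAD : HADStmt) (hWOR : WORStmt) (hSLC : SLCStmt) (hSOL : SOLStmt) : SWLStmt := by
  intro A δ j n v hv hA hδ ts hts hval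
  obtain ⟨hl1, hl2, hl3, -⟩ := hHAD j
  obtain ⟨N, hN⟩ : ∃ N : ℕ, N = 2 ^ j := ⟨_, rfl⟩
  obtain ⟨C, hC⟩ : ∃ C : List (List Bool), C = cdw (hd j) := ⟨_, rfl⟩
  have hClen : C.length = 2 * N := by rw [hC, cdw_length, hl1, hN]
  have hCrow : ∀ r ∈ C, r.length = N := by
    rw [hC, hN]
    exact cdw_row _ _ hl2
  have hNpos : 0 < N := by rw [hN]; positivity
  obtain ⟨s, hs⟩ : ∃ s : ℕ, s = 2 * (1 + N * n) + 3 := ⟨_, rfl⟩
  obtain ⟨P, hP⟩ : ∃ P : ℕ → Game, P = fun x => rst 0 (org n v (sel C x ts)) := ⟨_, rfl⟩
  obtain ⟨G, hG⟩ : ∃ G : Game, G = glue 0 s ((List.range N).map P) := ⟨_, rfl⟩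
  have htsC : ts.length = C.length := by rw [hts, hClen, hN]
  -- the parts
  have hsel : ∀ x < N, (∀ t ∈ sel C x ts, Valid t ∧ t.length = n) ∧ (sel C x ts).length = N ∧
      ∀ P : Game → Prop, (∃ t ∈ sel C x ts, P t) ↔
        ∃ k < C.length, (C.getD k []).getD x false = true ∧ P (ts.getD k []) := by
    intro x hx
    obtain ⟨h1, h2, h3⟩ := hSLC C x ts htsC
    refine ⟨fun t ht => hval t (h1 t ht), ?_, h3⟩
    rw [h2, hClen, hN, hC]
    exact hl3 x (by rw [← hN]; exact hx)
  have hpart : ∀ x < N, Valid (P x) ∧ (P x).length = s ∧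
      ∀ u < s, (win (P x) u = true ↔
        ∃ k < C.length, (C.getD k []).getD x false = true ∧ win (ts.getD k []) v = true) := by
    intro x hx
    obtain ⟨h1, h2, h3⟩ := hsel x hx
    obtain ⟨o1, o2, o3⟩ := hORG n v (sel C x ts) hv h1
    rw [h2] at o2
    have h0 : 0 < (org n v (sel C x ts)).length := by rw [o2]; omega
    obtain ⟨r1, -, -, -, -, r2⟩ := hRSL (org n v (sel C x ts)) 0
    have hPx : P x = rst 0 (org n v (sel C x ts)) := by rw [hP]
    have hlen : (P x).length = s := by rw [hPx, r1, o2, hs]
    refine ⟨by rw [hPx]; exact r2 o1 h0, hlen, ?_⟩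
    intro u hu
    have hw := hRST (org n v (sel C x ts)) 0 o1 h0 u (by rw [← hPx, hlen]; exact hu)
    rw [hPx, hw, o3]
    exact h3 (fun t => win t v = true)
  -- the union
  obtain ⟨c1, c2, c3⟩ := hCAT s ((List.range N).map P) (by
    intro p hp
    rw [List.mem_map] at hp
    obtain ⟨x, hx, rfl⟩ := hp
    obtain ⟨h1, h2, -⟩ := hpart x (List.mem_range.1 hx)
    exact ⟨h1, h2⟩)
  rw [← hG] at c1 c2 c3
  have hps : ((List.range N).map P).length = N := by
    rw [List.length_map, List.length_range]
  rw [hps] at c2 c3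
  have hget : ∀ x < N, ((List.range N).map P).getD x [] = P x := by
    intro x hx
    rw [List.getD_eq_getElem _ _ (by rw [hps]; exact hx)]
    simp
  -- the selector
  have hw : wl A (2 ^ j) (cdw (hd j)) n v ts =
      argm (fun k => agr (A G) s (C.getD k [])) C.length := by
    unfold wl
    rw [← hC, ← hN, ← hs]
    have hG' : G = glue 0 s ((List.range N).map fun x => rst 0 (org n v (sel C x ts))) := by
      rw [hG, hP]
    rw [hG']
  obtain ⟨k0, hk0⟩ : ∃ k0 : ℕ, k0 = argm (fun k => agr (A G) s (C.getD k [])) C.length :=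
    ⟨_, rfl⟩
  rw [hw, ← hk0]
  have hk0lt : k0 < C.length := by
    rw [hk0]
    exact argm_lt _ _ (by rw [hClen]; omega)
  have hM : 2 * 2 ^ j = C.length := by rw [hClen, hN]
  rw [hM]
  refine ⟨hk0lt, ?_⟩
  intro hall
  have hrow : (C.getD k0 []).length = N := by
    rw [List.getD_eq_getElem _ _ hk0lt]
    exact hCrow _ (List.getElem_mem _)
  -- the winner of a part is the letter of the code word
  have hletter : ∀ x < N, ∀ u < s, win G (x * s + u) = (C.getD k0 []).getD x false := by
    intro x hx u hu
    have h1 : win G (x * s + u) = win (P x) u := by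
      rw [c3 x hx u hu, hget x hx]
    have h2 := (hpart x hx).2.2 u hu
    have h3 : (∃ k < C.length, (C.getD k []).getD x false = true ∧
        win (ts.getD k []) v = true) ↔ (C.getD k0 []).getD x false = true := by
      constructor
      · rintro ⟨k, hk, h4, h5⟩
        rw [(hall k hk).1 h5] at h4
        exact h4
      · intro h4
        exact ⟨k0, hk0lt, h4, (hall k0 hk0lt).2 rfl⟩
    rw [h1]
    exact Bool.eq_iff_iff.2 (h2.trans h3)
  have hright : right G (A G) = agr (A G) s (C.getD k0 []) := by
    unfold right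
    rw [Finset.card_filter, c2, sum_blocks, agr_eq, hrow]
    apply Finset.sum_congr rfl
    intro x hx
    rw [Finset.mem_range] at hx
    apply Finset.sum_congr rfl
    intro u hu
    rw [Finset.mem_range] at hu
    have hlt : x * s + u < G.length := by
      rw [c2]
      calc x * s + u < x * s + s := by omega
        _ = (x + 1) * s := by ring
        _ ≤ N * s := Nat.mul_le_mul_right _ hx
    have h1 := (hSOL G c1).2 (x * s + u) hlt ((A G).getD (x * s + u) false)
    rw [hletter x hx u hu] at h1
    by_cases h2 : (A G).getD (x * s + u) false = (C.getD k0 []).getD x false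
    · rw [if_pos (h1.2 h2.symm), if_pos h2]
    · rw [if_neg (fun h => h2 (h1.1 h).symm), if_neg h2]
  have hodd : Odd s := ⟨1 + N * n + 1, by rw [hs]; ring⟩
  have hwor := hWOR j s (A G) hodd C hC
  rw [← hk0, ← hright] at hwor
  have hAG := hA G c1
  rw [c2] at hAG
  have hcast : ((2 ^ j * (2 * (1 + 2 ^ j * n) + 3) : ℕ) : ℝ) = ((N * s : ℕ) : ℝ) := by
    rw [hs, hN]
  rw [hcast] at hδ
  have h5 : ((N * s : ℕ) : ℝ) = 2 ^ j * s := by
    rw [hN]
    push_cast
    ring
  rw [h5] at hAG hδ
  linarith

end Pool.PG
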